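import Pool.Agent.H815.QC.Stm

/-!
# Project QC: lemma D3
Standard subgroups of independent sets are free.
-/

set_option autoImplicit false

namespace Pool.Agent.H448.QC

open Pool.Agent.Y110.FJ Pool.Agent.T2H65.GP Pool.Agent.H815.QC

section

variable {W : Type} (Λ : SimpleGraph W)

/-- from the free group to the graph product of infinite cyclic groups -/
noncomputable def fwd : FreeGroup W →* GrP Λ (B2 W) :=
  FreeGroup.lift (fun w => GrP.of Λ (B2 W) w (Multiplicative.ofAdd 1))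

/-- from the graph product of infinite cyclic groups to the free group, if there are no edges -/
noncomputable def bwd (h : ∀ v w, ¬ Λ.Adj v w) : GrP Λ (B2 W) →* FreeGroup W :=
  glift (fun w => zpowersHom (FreeGroup W) (FreeGroup.of w)) (fun v w hvw => absurd hvw (h v w))

theorem bwd_of (h : ∀ v w, ¬ Λ.Adj v w) (w : W) (b : Multiplicative ℤ) :
    bwd Λ h (GrP.of Λ (B2 W) w b) = FreeGroup.of w ^ (Multiplicative.toAdd b) := by
  rw [bwd, glift_of]
  rfl

theorem fwd_of (w : W) : fwd Λ (FreeGroup.of w) = GrP.of Λ (B2 W) w (Multiplicative.ofAdd 1) := by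
  rw [fwd, FreeGroup.lift_apply_of]

theorem bwd_fwd (h : ∀ v w, ¬ Λ.Adj v w) (x : FreeGroup W) : bwd Λ h (fwd Λ x) = x := by
  have h1 : (bwd Λ h).comp (fwd Λ) = MonoidHom.id _ := by
    apply FreeGroup.ext_hom
    intro w
    rw [MonoidHom.comp_apply, fwd_of, bwd_of, MonoidHom.id_apply, toAdd_ofAdd, zpow_one]
  exact DFunLike.congr_fun h1 x

theorem fwd_bwd (h : ∀ v w, ¬ Λ.Adj v w) (x : GrP Λ (B2 W)) : fwd Λ (bwd Λ h x) = x := by
  have h1 : (fwd Λ).comp (bwd Λ h) = MonoidHom.id _ := by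
    apply ghom_ext
    intro w b
    rw [MonoidHom.comp_apply, bwd_of, map_zpow, fwd_of, MonoidHom.id_apply, ← map_zpow, ← ofAdd_zsmul,
      smul_eq_mul, mul_one, ofAdd_toAdd]
  exact DFunLike.congr_fun h1 x

/-- the isomorphism -/
noncomputable def grEquiv (h : ∀ v w, ¬ Λ.Adj v w) : GrP Λ (B2 W) ≃* FreeGroup W where
  toFun := bwd Λ h
  invFun := fwd Λ
  left_inv := fwd_bwd Λ h
  right_inv := bwd_fwd Λ h
  map_mul' := map_mul _

end

theorem D3_proof : S_D3 := by
  intro V _ Λ S hS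
  have e1 : GrPs Λ (B2 V) S ≃* std Λ (B2 V) S := MonoidHom.ofInjective (inc_inj Λ (B2 V) S)
  have e2 : GrPs Λ (B2 V) S ≃* FreeGroup {v // S v} :=
    grEquiv (Λ.comap (Subtype.val : {v // S v} → V)) (fun v w h => hS v.1 w.1 v.2 w.2 h)
  have e3 : FreeGroup {v // S v} ≃* FreeGroup (Fin (Nat.card {v // S v})) :=
    FreeGroup.freeGroupCongr (Finite.equivFin {v // S v})
  exact ⟨(e1.symm.trans e2).trans e3⟩

end Pool.Agent.H448.QC
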